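import Mathlib

namespace Pool.Agent.H.MP_60b600_ag

open MvPolynomial

abbrev V : Type := Fin 7 → ℂ
abbrev R : Type := MvPolynomial (Fin 7) ℂ

/-- cubic part of `f₀` -/
def Cf (v : V) : ℂ := 2 * v 3 * v 0 * v 1 + v 4 * v 1 ^ 2 + v 5 * v 2 ^ 2

/-- the function of `f₀` -/
def ff (v : V) : ℂ := v 0 ^ 2 + Cf v

theorem hom_eval {A : R} {n : ℕ} (h : A.IsHomogeneous n) (t : ℂ) (v : V) :
    eval (t • v) A = t ^ n * eval v A := by
  rw [eval_eq', eval_eq', Finset.mul_sum]
  refine Finset.sum_congr rfl fun d hd => ?_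
  have hdeg : ∑ i, d i = n := by
    by_contra hne
    apply mem_support_iff.mp hd
    apply h.coeff_eq_zero
    rw [Finsupp.degree_eq_sum]
    exact hne
  simp only [Pi.smul_apply, smul_eq_mul, mul_pow, Finset.prod_mul_distrib,
    Finset.prod_pow_eq_pow_sum, hdeg]
  ring

theorem lin_eval {L : R} (h : L.IsHomogeneous 1) : ∃ l : V →ₗ[ℂ] ℂ, ∀ v, eval v L = l v := by
  have h' : L ∈ Submodule.span ℂ (Set.range (X : Fin 7 → R)) := by
    rw [← homogeneousSubmodule_one_eq_span_X]; exact h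
  clear h
  induction h' using Submodule.span_induction with
  | mem x hx =>
    obtain ⟨i, rfl⟩ := hx
    exact ⟨LinearMap.proj i, fun v => by simp⟩
  | zero => exact ⟨0, fun v => by simp⟩
  | add x y _ _ hx hy =>
    obtain ⟨l, hl⟩ := hx
    obtain ⟨m, hm⟩ := hy
    exact ⟨l + m, fun v => by simp [hl, hm]⟩
  | smul c x _ hx =>
    obtain ⟨l, hl⟩ := hx
    exact ⟨c • l, fun v => by simp [smul_eval, hl]⟩

theorem sum3 (Q : R) (h : Q.totalDegree < 3) :
    Q = homogeneousComponent 0 Q + homogeneousComponent 1 Q + homogeneousComponent 2 Q := by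
  have h1 := sum_homogeneousComponent Q
  have h2 : ∑ i ∈ Finset.range (Q.totalDegree + 1), homogeneousComponent i Q
      = ∑ i ∈ Finset.range 3, homogeneousComponent i Q := by
    apply Finset.sum_subset
    · intro i hi
      simp only [Finset.mem_range] at hi ⊢
      omega
    · intro i _ hi
      apply homogeneousComponent_eq_zero
      simp only [Finset.mem_range] at hi
      omega
  rw [h2] at h1
  simp only [Finset.sum_range_succ, Finset.range_zero, Finset.sum_empty, zero_add] at h1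
  exact h1.symm

theorem dec (Q : R) (h : Q.totalDegree < 3) :
    ∃ (A : R) (l : V →ₗ[ℂ] ℂ) (α : ℂ), A.IsHomogeneous 2 ∧ (Q.totalDegree ≤ 1 → A = 0) ∧
      ∀ v, eval v Q = eval v A + l v + α := by
  obtain ⟨l, hl⟩ := lin_eval (homogeneousComponent_isHomogeneous 1 Q)
  refine ⟨homogeneousComponent 2 Q, l, coeff 0 Q, homogeneousComponent_isHomogeneous 2 Q,
    fun h1 => homogeneousComponent_eq_zero _ _ (by omega), fun v => ?_⟩
  conv_lhs => rw [sum3 Q h]
  rw [map_add, map_add, hl, homogeneousComponent_zero, eval_C]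
  ring

theorem dec1 (Q : R) (h : Q.totalDegree ≤ 1) :
    ∃ (l : V →ₗ[ℂ] ℂ) (α : ℂ), ∀ v, eval v Q = l v + α := by
  obtain ⟨A, l, α, -, h2, h3⟩ := dec Q (by omega)
  exact ⟨l, α, fun v => by rw [h3, h2 h]; simp⟩

theorem lemH (β γ κ ρ : ℂ) : ∃ b c q r : ℂ,
    β * b + γ * c + κ * q + ρ * r = 0 ∧ q * b ^ 2 + r * c ^ 2 ≠ 0 := by
  by_cases hρ : ρ = 0
  · by_cases hκ : κ = 0
    · by_cases hγ : γ = 0
      · exact ⟨0, 1, 0, 1, by simp [hρ, hκ, hγ], by simp⟩
      · refine ⟨1, -β / γ, 1, 0, ?_, by simp⟩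
        rw [hκ]; field_simp; ring
    · refine ⟨0, 1, -γ / κ, 1, ?_, by simp⟩
      rw [hρ]; field_simp; ring
  · refine ⟨1, 0, 1, -(β + κ) / ρ, ?_, by simp⟩
    field_simp; ring

/-- basis vectors -/
def e (i : Fin 7) : V := Pi.single i 1

theorem factF_aux (i : Fin 7) (hi : i = 0 ∨ i = 3) (l m : V →ₗ[ℂ] ℂ)
    (hC : ∀ v, l v = 0 → m v = 0 → Cf v = 0) : l (e i) = 0 := by
  by_contra hl
  set μ := m (e i) / l (e i) with hμ
  obtain ⟨b, c, q, r, h1, h2⟩ := lemH (m (e 1) - μ * l (e 1)) (m (e 2) - μ * l (e 2))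
    (m (e 4) - μ * l (e 4)) (m (e 5) - μ * l (e 5))
  set w : V := b • e 1 + c • e 2 + q • e 4 + r • e 5 with hw
  set a := - l w / l (e i) with ha
  have hlw : l w = b * l (e 1) + c * l (e 2) + q * l (e 4) + r * l (e 5) := by
    simp [hw]
  have hmw : m w = b * m (e 1) + c * m (e 2) + q * m (e 4) + r * m (e 5) := by
    simp [hw]
  have h3 : l (a • e i + w) = 0 := by
    rw [map_add, map_smul, smul_eq_mul, ha]; field_simp; ring
  have h4 : m (a • e i + w) = 0 := by
    have : m (e i) = μ * l (e i) := by rw [hμ]; field_simp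
    rw [map_add, map_smul, smul_eq_mul, this]
    have h5 : a * l (e i) = - l w := by rw [ha]; field_simp
    linear_combination μ * h5 - μ * hlw + hmw + h1
  have h5 := hC _ h3 h4
  apply h2
  rcases hi with rfl | rfl
  · simpa [Cf, hw, e, Pi.single_apply] using h5
  · simpa [Cf, hw, e, Pi.single_apply] using h5

theorem factF (i : Fin 7) (hi : i = 0 ∨ i = 3) (l m : V →ₗ[ℂ] ℂ)
    (hC : ∀ v, l v = 0 → m v = 0 → Cf v = 0) : l (e i) = 0 ∧ m (e i) = 0 :=
  ⟨factF_aux i hi l m hC, factF_aux i hi m l fun v h1 h2 => hC v h2 h1⟩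

theorem noHyp (l : V →ₗ[ℂ] ℂ) (hC : ∀ v, l v = 0 → Cf v = 0) : False := by
  have := (factF 0 (Or.inl rfl) l (LinearMap.proj 0) fun v h1 _ => hC v h1).2
  simp [e] at this

theorem typeA (l m : V →ₗ[ℂ] ℂ) (α β : ℂ) (hC : ∀ v, l v = 0 → m v = 0 → Cf v = 0)
    (hf : ∀ v, l v + α = 0 → m v + β = 0 → ff v = 0) : False := by
  obtain ⟨h1, h2⟩ := factF 0 (Or.inl rfl) l m hC
  have key : ∀ v, l v + α = 0 → m v + β = 0 → False := by
    intro v hv1 hv2
    have a0 := hf v hv1 hv2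
    have a1 := hf (v + e 0) (by rw [map_add, h1, add_zero]; exact hv1)
      (by rw [map_add, h2, add_zero]; exact hv2)
    have a2 := hf (v - e 0) (by rw [map_sub, h1, sub_zero]; exact hv1)
      (by rw [map_sub, h2, sub_zero]; exact hv2)
    simp [ff, Cf, e] at a0 a1 a2
    have : (2 : ℂ) = 0 := by linear_combination a1 + a2 - 2 * a0
    norm_num at this
  by_cases hl : ∀ v, l v = 0
  · exact noHyp m fun v hv => hC v (hl v) hv
  push Not at hl
  obtain ⟨u, hu⟩ := hl
  by_cases hm : ∀ v, l v = 0 → m v = 0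
  · exact noHyp l fun v hv => hC v hv (hm v hv)
  push Not at hm
  obtain ⟨w, hw1, hw2⟩ := hm
  refine key ((-α / l u) • u + ((-β - (-α / l u) * m u) / m w) • w) ?_ ?_
  · rw [map_add, map_smul, map_smul, hw1]; simp only [smul_eq_mul]; field_simp; ring
  · rw [map_add, map_smul, map_smul]; simp only [smul_eq_mul]; field_simp; ring

theorem typeB (x y z w m1 m2 m3 m4 : V →ₗ[ℂ] ℂ)
    (h : ∀ v, Cf v = x v * y v * m1 v + z v * w v * m2 v + x v * z v * m3 v + y v * w v * m4 v) :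
    False := by
  have hxw : ∀ v, x v = 0 → w v = 0 → Cf v = 0 := fun v h1 h2 => by rw [h, h1, h2]; ring
  have hyz : ∀ v, y v = 0 → z v = 0 → Cf v = 0 := fun v h1 h2 => by rw [h, h1, h2]; ring
  obtain ⟨x0, w0⟩ := factF 0 (Or.inl rfl) x w hxw
  obtain ⟨x3, w3⟩ := factF 3 (Or.inr rfl) x w hxw
  obtain ⟨y0, z0⟩ := factF 0 (Or.inl rfl) y z hyz
  obtain ⟨y3, z3⟩ := factF 3 (Or.inr rfl) y z hyz
  have key : ∀ t : ℂ, Cf (e 0 + e 3 + t • e 1) = 2 * t := by
    intro t
    simp [Cf, e]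
  have k1 := h (e 0 + e 3 + (1 : ℂ) • e 1)
  have k2 := h (e 0 + e 3 + (-1 : ℂ) • e 1)
  have k3 := h (e 0 + e 3 + (2 : ℂ) • e 1)
  rw [key] at k1 k2 k3
  simp only [map_add, map_smul, smul_eq_mul, x0, x3, y0, y3, z0, z3, w0, w3] at k1 k2 k3
  have : (12 : ℂ) = 0 := by linear_combination 6 * k1 - 2 * k2 - k3
  norm_num at this

theorem ff_smul (t : ℂ) (v : V) : ff (t • v) = t ^ 2 * v 0 ^ 2 + t ^ 3 * Cf v := by
  simp only [ff, Cf, Pi.smul_apply, smul_eq_mul]; ring

theorem top2 {A x y : R} (hA : A.IsHomogeneous 2) (hxy : A = x * y) {l m : V →ₗ[ℂ] ℂ} {α β : ℂ}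
    (hx : ∀ v, eval v x = l v + α) (hy : ∀ v, eval v y = m v + β) (v : V) :
    eval v A = l v * m v := by
  have h1 := hom_eval hA (-1) v
  have h0 := hom_eval hA 0 v
  have g : ∀ u, eval u A = (l u + α) * (m u + β) := fun u => by rw [hxy, map_mul, hx, hy]
  have g1 := g v
  rw [g, map_smul, map_smul] at h1 h0
  simp only [smul_eq_mul] at h1 h0
  linear_combination (1 / 2 : ℂ) * g1 - (1 / 2 : ℂ) * h1 + h0

theorem deg_le_of_mul {A x y : R} (hA : A.IsHomogeneous 2) (hxy : A = x * y) (hx : x ≠ 0) :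
    y = 0 ∨ x.totalDegree + y.totalDegree = 2 := by
  by_cases hy : y = 0
  · exact Or.inl hy
  · right
    rw [← totalDegree_mul_of_isDomain hx hy, ← hxy]
    exact hA.totalDegree (by rw [hxy]; exact mul_ne_zero hx hy)

theorem notTwo (Q1 R1 Q2 R2 : R) (d1 : Q1.totalDegree < 3) (d2 : R1.totalDegree < 3)
    (d3 : Q2.totalDegree < 3) (d4 : R2.totalDegree < 3)
    (h : ∀ v, ff v = eval v Q1 * eval v R1 + eval v Q2 * eval v R2) : False := by
  obtain ⟨A1, l1, α1, hA1, -, e1⟩ := dec Q1 d1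
  obtain ⟨B1, m1, β1, hB1, -, e2⟩ := dec R1 d2
  obtain ⟨A2, l2, α2, hA2, -, e3⟩ := dec Q2 d3
  obtain ⟨B2, m2, β2, hB2, -, e4⟩ := dec R2 d4
  have hf : ∀ v, ff v = (eval v A1 + l1 v + α1) * (eval v B1 + m1 v + β1)
      + (eval v A2 + l2 v + α2) * (eval v B2 + m2 v + β2) := fun v => by
    rw [h, e1, e2, e3, e4]
  have ht : ∀ (t : ℂ) (v : V), t ^ 2 * v 0 ^ 2 + t ^ 3 * Cf v
      = (t ^ 2 * eval v A1 + t * l1 v + α1) * (t ^ 2 * eval v B1 + t * m1 v + β1)
      + (t ^ 2 * eval v A2 + t * l2 v + α2) * (t ^ 2 * eval v B2 + t * m2 v + β2) := by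
    intro t v
    rw [← ff_smul, hf, hom_eval hA1, hom_eval hA2, hom_eval hB1, hom_eval hB2]
    simp only [map_smul, smul_eq_mul]
  have h4 : ∀ v, eval v A1 * eval v B1 + eval v A2 * eval v B2 = 0 := fun v => by
    linear_combination (-1 / 24 : ℂ) * (ht 2 v + ht (-2) v - 4 * ht 1 v - 4 * ht (-1) v + 6 * ht 0 v)
  have h3 : ∀ v, Cf v = eval v A1 * m1 v + eval v B1 * l1 v + eval v A2 * m2 v
      + eval v B2 * l2 v := fun v => by
    linear_combination (1 / 12 : ℂ) * (ht 2 v - ht (-2) v - 2 * ht 1 v + 2 * ht (-1) v)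
  have h4' : A1 * B1 + A2 * B2 = 0 := by
    apply MvPolynomial.funext
    intro v
    simpa using h4 v
  by_cases z1 : A1 = 0
  · have : A2 * B2 = 0 := by simpa [z1] using h4'
    rcases mul_eq_zero.mp this with z2 | z2
    · refine typeA l1 l2 α1 α2 (fun v a b => ?_) (fun v a b => ?_)
      · rw [h3, z1, z2, a, b]; simp
      · rw [hf, z1, z2]; simp only [map_zero, zero_add]; rw [a, b]; simp
    · refine typeA l1 m2 α1 β2 (fun v a b => ?_) (fun v a b => ?_)
      · rw [h3, z1, z2, a, b]; simp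
      · rw [hf, z1, z2]; simp only [map_zero, zero_add]; rw [a, b]; simp
  have hdvd : A1 ∣ A2 * B2 := ⟨-B1, by linear_combination h4'⟩
  obtain ⟨x, y, ⟨z, hz⟩, ⟨w, hw⟩, hxy⟩ := exists_dvd_and_dvd_of_dvd_mul hdvd
  have hx : x ≠ 0 := fun h0 => z1 (by rw [hxy, h0, zero_mul])
  have hy : y ≠ 0 := fun h0 => z1 (by rw [hxy, h0, mul_zero])
  have hB : B1 = (-z) * w := by
    apply mul_left_cancel₀ z1
    rw [hz, hw] at h4'
    rw [hxy] at h4' ⊢
    linear_combination h4'
  have dxy := (deg_le_of_mul hA1 hxy hx).resolve_left hy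
  have dxz := deg_le_of_mul hA2 hz hx
  have dyw := deg_le_of_mul hB2 hw hy
  have hcases : x.totalDegree = 0 ∨ y.totalDegree = 0 ∨
      (x.totalDegree = 1 ∧ y.totalDegree = 1) := by omega
  rcases hcases with c | c | ⟨c, c'⟩
  · have dw : w.totalDegree = 0 := by
      rcases dyw with h0 | h0
      · rw [h0]; simp
      · omega
    rw [totalDegree_eq_zero_iff_eq_C] at c dw
    set ξ := coeff 0 x
    set ω := coeff 0 w
    have hξ : ξ ≠ 0 := fun h0 => hx (by rw [c, h0]; simp)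
    have q1 : ∀ v, eval v B2 = (ω / ξ) * eval v A1 := fun v => by
      rw [hw, hxy, map_mul, map_mul, c, dw, eval_C, eval_C]; field_simp
    have q2 : ∀ v, eval v B1 = -(ω / ξ) * eval v A2 := fun v => by
      rw [hB, hz, map_mul, map_mul, map_neg, c, dw, eval_C, eval_C]; field_simp
    refine typeA (m1 + (ω / ξ) • l2) (m2 - (ω / ξ) • l1) (β1 + (ω / ξ) * α2) (β2 - (ω / ξ) * α1)
      (fun v a b => ?_) (fun v a b => ?_)
    · simp only [LinearMap.add_apply, LinearMap.sub_apply, LinearMap.smul_apply, smul_eq_mul] at a b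
      rw [h3, q1, q2]
      linear_combination eval v A1 * a + eval v A2 * b
    · simp only [LinearMap.add_apply, LinearMap.sub_apply, LinearMap.smul_apply, smul_eq_mul] at a b
      rw [hf, q1, q2]
      linear_combination (eval v A1 + l1 v + α1) * a + (eval v A2 + l2 v + α2) * b
  · have dz : z.totalDegree = 0 := by
      rcases dxz with h0 | h0
      · rw [h0]; simp
      · omega
    rw [totalDegree_eq_zero_iff_eq_C] at c dz
    set η := coeff 0 y
    set ζ := coeff 0 z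
    have hη : η ≠ 0 := fun h0 => hy (by rw [c, h0]; simp)
    have q1 : ∀ v, eval v A2 = (ζ / η) * eval v A1 := fun v => by
      rw [hz, hxy, map_mul, map_mul, c, dz, eval_C, eval_C]; field_simp
    have q2 : ∀ v, eval v B1 = -(ζ / η) * eval v B2 := fun v => by
      rw [hB, hw, map_mul, map_mul, map_neg, c, dz, eval_C, eval_C]; field_simp
    refine typeA (m1 + (ζ / η) • m2) (l2 - (ζ / η) • l1) (β1 + (ζ / η) * β2) (α2 - (ζ / η) * α1)
      (fun v a b => ?_) (fun v a b => ?_)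
    · simp only [LinearMap.add_apply, LinearMap.sub_apply, LinearMap.smul_apply, smul_eq_mul] at a b
      rw [h3, q1, q2]
      linear_combination eval v A1 * a + eval v B2 * b
    · simp only [LinearMap.add_apply, LinearMap.sub_apply, LinearMap.smul_apply, smul_eq_mul] at a b
      rw [hf, q1, q2]
      linear_combination (eval v A1 + l1 v + α1) * a + (eval v B2 + m2 v + β2) * b
  · have dz : (-z).totalDegree ≤ 1 := by
      rw [totalDegree_neg]
      rcases dxz with h0 | h0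
      · rw [h0]; simp
      · omega
    have dw : w.totalDegree ≤ 1 := by
      rcases dyw with h0 | h0
      · rw [h0]; simp
      · omega
    obtain ⟨lx, ax, ex⟩ := dec1 x c.le
    obtain ⟨ly, ay, ey⟩ := dec1 y c'.le
    obtain ⟨lz, az, ez⟩ := dec1 (-z) dz
    obtain ⟨lw, aw, ew⟩ := dec1 w dw
    have hz' : -A2 = x * (-z) := by rw [hz]; ring
    refine typeB lx ly lz lw m1 l1 (-m2) l2 fun v => ?_
    have t1 := top2 hA1 hxy ex ey v
    have t2 := top2 hA2.neg hz' ex ez v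
    have t3 := top2 hB2 hw ey ew v
    have t4 := top2 hB1 hB ez ew v
    rw [map_neg] at t2
    rw [h3, t1, t3, t4, LinearMap.neg_apply]
    linear_combination (-m2 v) * t2

end Pool.Agent.H.MP_60b600_ag
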